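import Mathlib
import Pool.Agent.V1176.LegC

set_option autoImplicit false

open Polynomial Pool.Agent.V1176 Pool.Agent.V1176.Leg

namespace Pool.Agent.Results.MP_c471e0_an.NoCubic

/-- No cubic sequence is a Legendre multiplier sequence. -/
theorem result : ∀ q : ℝ[X], q.natDegree = 3 → ¬ IsLegendreMS (fun k => q.eval (k : ℝ)) :=
  fun q hq => main q (by rw [hq]; decide)

end Pool.Agent.Results.MP_c471e0_an.NoCubic
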